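import Pool.Agent.H7.IA.Stmts
import Pool.Agent.H7.JB.Stmts
import Pool.Agent.H7.KC.Stmts

/-!
# The residue `r = ω - 3`: board `ld` (MP_fd41b2_co)

The statements of the boards `hz`, `ia` (and the rows `XXXW` of `jb`, and GCO0, PHI0 of `gu8`) with `r ≤ b - 2` in place of `r ≤ b - 3`
(`b = p + 3 = ω - 1`). Row `XXX` = `def XXXStmt : Prop`; file `Pool/Agent/H<k>/LD/XXX.lean`, `import Pool.Agent.H7.LD.Stmts`, namespace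
`Pool.LD7`, `open Pool.Agent.H23.KT Pool.Agent.H46.KW Pool.KQ Pool.GT7 Pool.GU7 Pool.HZ7 Pool.IA7`. `PrZ`, `PrW`, `PrT`, `Pr0` are the
structures of `Pool.LD7`. Statements without these hypotheses (SPX REF ARR GRE CQS CRS KUB BLE CMP UCL CRT KBT MOD) are used as they
are. The conclusions needed from GCO0 for `r = b - 2`: `ww p r (p+1) = b/(2(b-1))`.
-/

set_option autoImplicit false

open Finset

namespace Pool.LD7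

open Pool.Agent.H23.KT Pool.Agent.H46.KW Pool.KQ Pool.GT7 Pool.GU7 Pool.HZ7 Pool.IA7

/-- Conditions. -/
structure PrZ (p r : ℕ) : Prop where
  rb : p + 3 ≤ 2 * r
  rp : r ≤ p + 1
  p2 : 2 ≤ p

/-- Weak conditions. -/
structure PrW (p r : ℕ) : Prop where
  p2 : 2 ≤ p
  r1 : 1 ≤ r
  rp : r ≤ p + 1

/-- Conditions. -/
structure PrT (p w r : ℕ) : Prop where
  w1 : 1 ≤ w
  wp : w ≤ p
  rp : r ≤ p + 1
  p3 : 3 ≤ p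
  rs : 2 * r * (r - 1).choose (w + 1) + (p + 2).choose (w + 1) * ((w + 1) * (p + 3 - r)) <
    (p + 2).choose (w + 1) * (2 * r)

/-- Conditions. -/
structure Pr0 (p w r : ℕ) : Prop where
  wp : w ≤ p
  r1 : 1 ≤ r
  rp : r ≤ p + 1

/-- (GCO0) As the row of the same name. -/
def GCO0Stmt : Prop :=
  ∀ p w r : ℕ, Pr0 p w r →
    (∀ B ≤ p + 2, 0 ≤ ww p r B ∧ ww p r B ≤ 1 ∧ 0 ≤ gg p r (B + 1) ∧ gg p r (B + 1) ≤ 1) ∧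
    ww p r (p + 2) = 1 ∧ 1 / 2 ≤ ww p r (p + 1) ∧
    (∀ B ≤ p + 2, r ≤ B → 1 / ((p : ℝ) + 3) ≤ ww p r B) ∧
    (∀ μ ≤ p + 2, gg p r (p + 3 - μ) ≤
      (r : ℝ) / (((p : ℝ) + 3 - r) * ((p : ℝ) + 2)) * μ + μ.choose 2)

/-- (PHI0) As the row of the same name. -/
def PHI0Stmt : Prop :=
  ∀ {V : Type} [Fintype V] [DecidableEq V] (G : SimpleGraph V) (p w r a : ℕ), Pr0 p w r →
    CB G univ (p + 4) → (∀ v, (nb G univ v).card ≤ (p + 3) * a + r) →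
    ∀ K ∈ clq G univ (p + 4), (r : ℝ) ≤
      ∑ v ∈ K, min (r : ℝ) (XX G p r a (nb G univ v) (K.erase v))

/-- (PWN) As the row of the same name. -/
def PWNStmt : Prop :=
  ∀ p r : ℕ, PrZ p r → 0 < ph p r ∧ ph p r ≤ 1 / 2 ∧
    (∀ B ≤ p + 2, (B : ℝ) ≤ ((p : ℝ) + 2) * (1 - ph p r) + ph p r * ((p : ℝ) + 2) * ww p r B) ∧
    (∀ B ≤ p + 1, (B : ℝ) + 1 / (2 * ((p : ℝ) + 3)) ≤
      ((p : ℝ) + 2) * (1 - ph p r) + ph p r * ((p : ℝ) + 2) * ww p r B)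

/-- (MLG) As the row of the same name. -/
def MLGStmt : Prop :=
  ∀ {V : Type} [DecidableEq V] (G : SimpleGraph V) (p w r a : ℕ) (e f : ℝ)
    (P : Fin (p + 3) → Finset V), Pr0 p w r → 0 ≤ e → 0 ≤ f → Par G P →
    (∀ i, ((P i).card : ℝ) ≤ (1 + e) * a) →
    (∀ i, ∀ u ∈ P i, ∀ k, k ≠ i → ((non G (P k) u).card : ℝ) ≤ f * a) →
    ∑ L ∈ clq G (un P) (p + 3), mm G p r (un P) L ≤
      tot G P * ((1 + e) * a) ^ (p + 2) *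
        ((r : ℝ) / (((p : ℝ) + 3 - r) * ((p : ℝ) + 2)) + ((p : ℝ) + 3) / 2 * f)

/-- (EDU) As the row of the same name. -/
def EDUStmt : Prop :=
  (∀ {V : Type} [DecidableEq V] (G : SimpleGraph V) (p : ℕ) (W : Finset V)
    (P : Fin (p + 3) → Finset V) (U : Finset V), Par G P → (∀ i, Disjoint (P i) U) →
    (∀ u, u ∈ W ↔ u ∈ U ∨ ∃ i, u ∈ P i) →
    (kc G W 2 : ℝ) + tot G P / 2 ≤
      es (sz P) 2 + ∑ z ∈ U, ((nb G (un P) z).card : ℝ) + (U.card : ℝ) ^ 2) ∧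
  (∀ (p a r x : ℕ) (n : Fin (p + 3) → ℕ), r ≤ p + 1 → ∑ i, n i + x = (p + 3) * a + r →
    (es n 2 : ℝ) + x * (((p : ℝ) + 2) * a) ≤ TT (p + 3) 2 a r + ((r : ℝ) + x) ^ 2)

/-- (ZSU) As the row of the same name. -/
def ZSUStmt : Prop :=
  ∀ p r : ℕ, PrZ p r → ∀ δ : ℝ, 0 < δ → ∃ e₀ : ℝ, 0 < e₀ ∧ e₀ ≤ 1 / 2 ∧ ∀ C : ℝ, 0 < C →
    ∃ a₀ : ℕ, ∀ a ≥ a₀, ∀ {V : Type} [DecidableEq V] (G : SimpleGraph V) (e f C' : ℝ)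
    (W : Finset V) (P : Fin (p + 3) → Finset V) (U : Finset V), 0 ≤ e → e ≤ e₀ →
    Stq G p a e f C C' W P U → CB G W (p + 3) → ∀ z ∈ U,
    ((nb G (un P) z).card : ℝ) +
        1 / (2 * ((p : ℝ) + 3)) * (nlow G p (un P) z : ℝ) / (a : ℝ) ^ (p + 2) ≤
      ((p : ℝ) + 2) * (1 - ph p r) * a + Mz p r a * TZ G p r (un P) z + δ * a

/-- (LOQ) As the row of the same name. -/
def LOQStmt : Prop :=
  ∀ p r : ℕ, PrZ p r → ∀ C ε : ℝ, 0 < C → 0 < ε → ∃ f : ℝ, 0 < f ∧ f ≤ 1 ∧ ∀ C' : ℝ, 0 < C' →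
    ∃ e₀ : ℝ, 0 < e₀ ∧ e₀ ≤ 1 / 2 ∧ ∃ a₀ : ℕ, ∀ a ≥ a₀, ∀ {V : Type} [DecidableEq V]
    (G : SimpleGraph V) (e : ℝ) (W : Finset V) (P : Fin (p + 3) → Finset V) (U : Finset V),
    0 ≤ e → e ≤ e₀ → Stq G p a e f C C' W P U → CB G W (p + 3) → W.card ≤ (p + 3) * a + r →
    (((p + 3) * a + r : ℕ) : ℝ) ≤ W.card + C' →
    Mz p r a * ∑ L ∈ clq G W (p + 3), min (r : ℝ) (XX G p r a W L) +
        (a : ℝ) / 2 * ((((p + 3) * a + r : ℕ) : ℝ) - W.card) +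
        1 / (2 * ((p : ℝ) + 3)) * ∑ z ∈ U, (nlow G p (un P) z : ℝ) / (a : ℝ) ^ (p + 2) ≤
      df G p 0 r a W + ε * a

/-- (WSV) As the row of the same name. -/
def WSVStmt : Prop :=
  ∀ p r : ℕ, PrZ p r → ∃ c C : ℝ, 0 < c ∧ 0 < C ∧ ∀ ε e : ℝ, 0 < ε → 0 < e → e ≤ 1 / 8 →
    ∃ a₀ : ℕ, ∀ a ≥ a₀, ∀ {V : Type} [Fintype V] [DecidableEq V] (G : SimpleGraph V),
    G8 G p r a → ∀ v : V, ∃ s : ℝ, (s = c ∨ s = 0 ∧ ∃ P, Cl G p r a e C v P) ∧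
      Mz p r a * ∑ L ∈ clq G (nb G univ v) (p + 3), min (r : ℝ) (XX G p r a (nb G univ v) L) -
          Mz p r a * ((r : ℝ) / ((p : ℝ) + 4)) * kc G (nb G univ v) (p + 3) + lz p r * a + s * a ≤
        df G p 0 r a (nb G univ v) + ε * a

/-- (WSG) As the row of the same name. -/
def WSGStmt : Prop :=
  ∀ p r : ℕ, PrZ p r → ∃ C : ℝ, 0 < C ∧ ∀ ε e K : ℝ, 0 < ε → 0 < e → e ≤ 1 / 8 →
    ∃ a₀ : ℕ, ∀ a ≥ a₀, ∀ {V : Type} [Fintype V] [DecidableEq V] (G : SimpleGraph V),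
    G8 G p r a →
    ∑ v, df G p 0 r a (nb G univ v) ≤ (lz p r * a + K) * Fintype.card V →
    ∃ (D : Finset V) (P : V → Fin (p + 3) → Finset V), (∀ v ∈ D, Cl G p r a e C v (P v)) ∧
      ((univ \ D).card : ℝ) ≤ ε * Fintype.card V

/-- (FNDW) As the row of the same name. -/
def FNDWStmt : Prop :=
  ∀ p r : ℕ, PrW p r → ∀ C : ℝ, 0 < C → ∃ ε C₅ : ℝ, 0 < ε ∧ 0 < C₅ ∧ ∀ e : ℝ, 0 < e →
    e ≤ 1 / (8 * ((p : ℝ) + 3)) → ∃ a₀ : ℕ, ∀ a ≥ a₀, ∀ {V : Type} [Fintype V] [DecidableEq V]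
    (G : SimpleGraph V), G8 G p r a → Nonempty V → ∀ (D : Finset V)
    (P : V → Fin (p + 3) → Finset V), (∀ v ∈ D, Cl G p r a e C v (P v)) →
    ((univ \ D).card : ℝ) ≤ ε * Fintype.card V →
    ∃ κ : Fin (p + 4) → V, (∀ i j, i ≠ j → G.Adj (κ i) (κ j)) ∧ (∀ i, κ i ∈ D) ∧
      (∀ i, ((nb G univ (κ i) \ D).card : ℝ) ≤ 1 / 4 * a) ∧
      (∀ i l, i ≠ l → ∀ j, κ l ∈ P (κ i) j → ∀ k, k ≠ j →
        ((non G (P (κ i) k) (κ l)).card : ℝ) ≤ C₅)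

/-- (COAW) As the row of the same name. -/
def COAWStmt : Prop :=
  ∀ p r : ℕ, PrW p r → ∀ C₅ : ℝ, 0 < C₅ → ∃ a₀ : ℕ, ∀ a ≥ a₀,
    ∀ {V : Type} [Fintype V] [DecidableEq V] (G : SimpleGraph V) (e C : ℝ) (D : Finset V)
    (κ : Fin (p + 4) → V) (A : Fin (p + 4) → Fin (p + 4) → Finset V), e ≤ 1 / 8 →
    Arr G p r a e C C₅ D κ A →
    (∀ i j k, i ≠ j → i ≠ k → j ≠ k → ((A i j \ A k j).card : ℝ) ≤ ((p : ℝ) + 3) * C₅) ∧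
    (∀ i j k l, j ≠ l → Disjoint (A i j) (A k l))

/-- (COBW) As the row of the same name. -/
def COBWStmt : Prop :=
  ∀ p r : ℕ, PrW p r → ∀ C₅ : ℝ, 0 < C₅ → ∃ a₀ : ℕ, ∀ a ≥ a₀,
    ∀ {V : Type} [Fintype V] [DecidableEq V] (G : SimpleGraph V) (e C : ℝ) (D : Finset V)
    (P : V → Fin (p + 3) → Finset V) (κ : Fin (p + 4) → V)
    (A : Fin (p + 4) → Fin (p + 4) → Finset V), 0 < e → e ≤ 1 / 8 →
    (∀ v ∈ D, Cl G p r a e C v (P v)) → Arr G p r a e C C₅ D κ A →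
    ∀ i j, ∀ z ∈ A i j, ∀ q, q ≠ j → ∀ l, l ≠ q →
      ((non G (A l q) z).card : ℝ) ≤ ((p : ℝ) + 4) * e1 p * a + ((p : ℝ) + 3) * C₅

/-- (CORW) As the row of the same name. -/
def CORWStmt : Prop :=
  ∀ p r : ℕ, PrW p r → ∀ C C₅ : ℝ, 0 < C → 0 < C₅ → ∃ C₆ : ℝ, 0 < C₆ ∧ ∃ a₀ : ℕ, ∀ a ≥ a₀,
    ∀ {V : Type} [Fintype V] [DecidableEq V] (G : SimpleGraph V) (e : ℝ) (D : Finset V)
    (P : V → Fin (p + 3) → Finset V) (κ : Fin (p + 4) → V)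
    (A : Fin (p + 4) → Fin (p + 4) → Finset V), G8 G p r a → 0 < e → e ≤ 1 / 8 →
    (∀ v ∈ D, Cl G p r a e C v (P v)) → Arr G p r a e C C₅ D κ A →
    ∃ Q, Cor G p r a C₆ Q

/-- (EXPW) As the row of the same name. -/
def EXPWStmt : Prop :=
  ∀ p r : ℕ, PrW p r → ∀ C₆ : ℝ, 0 < C₆ → ∃ C : ℝ, 0 < C ∧ ∃ a₀ : ℕ, ∀ a ≥ a₀,
    ∀ {V : Type} [Fintype V] [DecidableEq V] (G : SimpleGraph V) (Q : Fin (p + 4) → Finset V),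
    G8 G p r a → Cor G p r a C₆ Q → ∃ Q', Blb G p r a C Q'

/-- (DLBW) As the row of the same name. -/
def DLBWStmt : Prop :=
  ∀ p r : ℕ, PrW p r → ∀ C : ℝ, 0 < C → ∃ K : ℕ, ∀ a ≥ K,
    ∀ {V : Type} [Fintype V] [DecidableEq V] (G : SimpleGraph V) (Q : Fin (p + 4) → Finset V),
    G8 G p r a → Blb G p r a C Q → ∃ (s : ℕ) (σ : Fin (p + 4) → ℕ), 1 ≤ s ∧ s ≤ K ∧
      (∀ j, σ j ≤ K) ∧ (∀ j, (Q j).card + σ j = a + s) ∧ ∑ j, σ j + r = (p + 3) * s ∧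
      (un Q).card = (p + 3) * a + r + a + s ∧
      (∀ j, ∀ u ∈ Q j, ∑ k ∈ univ.erase j, (non G (Q k) u).card =
        σ j + dl G p r a (un Q) u) ∧
      (∀ u ∈ un Q, (nb G (univ \ un Q) u).card ≤ dl G p r a (un Q) u) ∧
      (∀ u ∈ un Q, (dl G p r a (un Q) u : ℝ) ≤ a / 4) ∧
      ((∑ u ∈ un Q, dl G p r a (un Q) u : ℕ) : ℝ) ≤ C * a ∧
      Even (∑ j, (Q j).card * σ j + ∑ u ∈ un Q, dl G p r a (un Q) u)

/-- (CQBW) As the row of the same name. -/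
def CQBWStmt : Prop :=
  ∀ p r : ℕ, PrW p r → ∀ C : ℝ, 0 < C → ∃ a₀ : ℕ, ∀ a ≥ a₀,
    ∀ {V : Type} [Fintype V] [DecidableEq V] (G : SimpleGraph V) (Q : Fin (p + 4) → Finset V),
    G8 G p r a → Blb G p r a C Q →
    (∀ u ∈ un Q, (nb G (univ \ un Q) u).card ≤ dl G p r a (un Q) u) →
    (∀ u ∈ un Q, (dl G p r a (un Q) u : ℝ) ≤ a / 4) →
    ((∑ u ∈ un Q, dl G p r a (un Q) u : ℕ) : ℝ) ≤ C * a →
    ∑ z ∈ un Q, (((nb G (univ \ un Q) z).card).choose 2 : ℝ) +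
        ∑ u ∈ un Q, ((dl G p r a (un Q) u : ℝ) * (dl G p r a (un Q) u - 1)) / 2 +
        ∑ q ∈ univ \ un Q, (kc G (nb G (un Q) q) 2 : ℝ) +
        (a / (400 * ((p : ℝ) + 5)) + C) * ∑ u ∈ un Q, (dl G p r a (un Q) u : ℝ) ≤
      ((p : ℝ) + 2) / 2 * a * ∑ u ∈ un Q, (dl G p r a (un Q) u : ℝ)

/-- (NS1W) As the row of the same name. -/
def NS1WStmt : Prop :=
  ∀ p r : ℕ, PrW p r → ∃ a₀ : ℕ, ∀ a ≥ a₀, ∀ n σ : Fin (p + 4) → ℕ,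
    (∀ j, n j + σ j = a + 1) → ∑ j, σ j + r = p + 3 →
    Psi p r a 1 n σ ≤ (TT (p + 4) 3 a (r + 1) : ℝ) -
      1 / 2 * (((p + 3 - r : ℕ) : ℝ) * a) * Xz p r a

/-- (NS2W) As the row of the same name. -/
def NS2WStmt : Prop :=
  ∀ p r : ℕ, PrW p r → ∀ K : ℕ, ∃ a₀ : ℕ, ∀ a ≥ a₀, ∀ s, 2 ≤ s → s ≤ K →
    ∀ n σ : Fin (p + 4) → ℕ, (∀ j, n j + σ j = a + s) → (∀ j, σ j ≤ K) →
    ∑ j, σ j + r = (p + 3) * s →
    Psi p r a s n σ * ((((p + 3) * a + r + a + 1 : ℕ)) : ℝ) ≤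
      kx p r a * ((((p + 3) * a + r + a + s : ℕ)) : ℝ)

/-- (NAVW) As the row of the same name. -/
def NAVWStmt : Prop :=
  ∀ p r : ℕ, PrW p r → ∃ K : ℝ, 0 < K ∧ ∃ a₀ : ℕ, ∀ a ≥ a₀, 0 < kx p r a ∧
    (TT (p + 3) 2 a r : ℝ) * ((((p + 3) * a + r + a + 1 : ℕ)) : ℝ) - 3 * kx p r a ≤
      (lz p r * a + K) * ((((p + 3) * a + r + a + 1 : ℕ)) : ℝ)

/-- (RFGW) As the row of the same name. -/
def RFGWStmt : Prop :=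
  ∀ p r a : ℕ, PrW p r → 1 ≤ a → ∃ R : SimpleGraph (Fin ((p + 3) * a + r + a + 1)),
    (∀ v, (R.neighborSet v).ncard ≤ (p + 3) * a + r) ∧ R.CliqueFree (p + 5) ∧
    kx p r a ≤ ({s : Finset (Fin ((p + 3) * a + r + a + 1)) | R.IsNClique 3 s}.ncard : ℝ)

/-- (MANW) As the row of the same name. -/
def MANWStmt : Prop :=
  ∀ p r : ℕ, PrW p r → ∀ C : ℝ, 0 < C → ∃ a₀ : ℕ, ∀ a ≥ a₀,
    ∀ {V : Type} [Fintype V] [DecidableEq V] (G : SimpleGraph V) (Q : Fin (p + 4) → Finset V),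
    G8 G p r a → Blb G p r a C Q →
    ((kc G univ 3 : ℝ) - kc G (univ \ un Q) 3) * ((((p + 3) * a + r + a + 1 : ℕ)) : ℝ) ≤
      kx p r a * (un Q).card

/-- (PWT) As the row of the same name. -/
def PWTStmt : Prop :=
  ∀ p w r : ℕ, PrT p w r → PrZ p r ∧ 0 < pt p w r ∧ pt p w r < 1 ∧
    (∀ B ≤ p + 2, (B.choose (w + 1) : ℝ) ≤
      c1 p w * (1 - pt p w r) + pt p w r * c1 p w * ww p r B) ∧
    (∀ B ≤ p + 1, (B.choose (w + 1) : ℝ) + 1 / (2 * ((p : ℝ) + 3) ^ 2) ≤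
      c1 p w * (1 - pt p w r) + pt p w r * c1 p w * ww p r B)

/-- (XLO) As the row of the same name. -/
def XLOStmt : Prop :=
  ∀ (p w a r x lo : ℕ) (n : Fin (p + 3) → ℕ), r ≤ p + 1 → ∑ i, n i + x = (p + 3) * a + r →
    (∀ i, lo ≤ n i) →
    es n (w + 2) + x * ((p + 2).choose (w + 1) * lo ^ (w + 1)) ≤ TT (p + 3) (w + 2) a r

/-- (ZST) As the row of the same name. -/
def ZSTStmt : Prop :=
  ∀ p w r : ℕ, PrT p w r → ∀ δ : ℝ, 0 < δ → ∃ e₀ : ℝ, 0 < e₀ ∧ e₀ ≤ 1 / 2 ∧ ∀ C : ℝ, 0 < C →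
    ∃ a₀ : ℕ, ∀ a ≥ a₀, ∀ {V : Type} [DecidableEq V] (G : SimpleGraph V) (e f C' : ℝ)
    (W : Finset V) (P : Fin (p + 3) → Finset V) (U : Finset V), 0 ≤ e → e ≤ e₀ →
    Stq G p a e f C C' W P U → CB G W (p + 3) → ∀ z ∈ U,
    (kc G (nb G (un P) z) (w + 1) : ℝ) +
        1 / (2 * ((p : ℝ) + 3) ^ 2) * (nlow G p (un P) z : ℝ) / (a : ℝ) ^ (p + 2 - w) ≤
      c1 p w * (1 - pt p w r) * (a : ℝ) ^ (w + 1) + Mt p w r a * TZ G p r (un P) z +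
        δ * (a : ℝ) ^ (w + 1)

/-- (LOT) As the row of the same name. -/
def LOTStmt : Prop :=
  ∀ p w r : ℕ, PrT p w r → ∀ C ε : ℝ, 0 < C → 0 < ε → ∃ f : ℝ, 0 < f ∧ f ≤ 1 ∧
    ∀ C' : ℝ, 0 < C' → ∃ e₀ : ℝ, 0 < e₀ ∧ e₀ ≤ 1 / 2 ∧ ∃ a₀ : ℕ, ∀ a ≥ a₀,
    ∀ {V : Type} [DecidableEq V] (G : SimpleGraph V) (e : ℝ) (W : Finset V)
    (P : Fin (p + 3) → Finset V) (U : Finset V),
    0 ≤ e → e ≤ e₀ → Stq G p a e f C C' W P U → CB G W (p + 3) → W.card ≤ (p + 3) * a + r →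
    (((p + 3) * a + r : ℕ) : ℝ) ≤ W.card + C' →
    Mt p w r a * ∑ L ∈ clq G W (p + 3), min (r : ℝ) (XX G p r a W L) +
        (1 - pt p w r) * c1 p w * (a : ℝ) ^ (w + 1) *
          ((((p + 3) * a + r : ℕ) : ℝ) - W.card) +
        1 / (2 * ((p : ℝ) + 3) ^ 2) *
          ∑ z ∈ U, (nlow G p (un P) z : ℝ) / (a : ℝ) ^ (p + 2 - w) ≤
      df G p w r a W + ε * (a : ℝ) ^ (w + 1)

/-- (WVT) As the row of the same name. -/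
def WVTStmt : Prop :=
  ∀ p w r : ℕ, PrT p w r → ∃ c C : ℝ, 0 < c ∧ 0 < C ∧ ∀ ε e : ℝ, 0 < ε → 0 < e → e ≤ 1 / 8 →
    ∃ a₀ : ℕ, ∀ a ≥ a₀, ∀ {V : Type} [Fintype V] [DecidableEq V] (G : SimpleGraph V),
    G8 G p r a → ∀ v : V, ∃ s : ℝ, (s = c ∨ s = 0 ∧ ∃ P, Cl G p r a e C v P) ∧
      Mt p w r a * ∑ L ∈ clq G (nb G univ v) (p + 3), min (r : ℝ) (XX G p r a (nb G univ v) L) -
          Mt p w r a * ((r : ℝ) / ((p : ℝ) + 4)) * kc G (nb G univ v) (p + 3) +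
          ltt p w r * (a : ℝ) ^ (w + 1) + s * (a : ℝ) ^ (w + 1) ≤
        df G p w r a (nb G univ v) + ε * (a : ℝ) ^ (w + 1)

/-- (WGT) As the row of the same name. -/
def WGTStmt : Prop :=
  ∀ p w r : ℕ, PrT p w r → ∃ C : ℝ, 0 < C ∧ ∀ ε e K : ℝ, 0 < ε → 0 < e → e ≤ 1 / 8 →
    ∃ a₀ : ℕ, ∀ a ≥ a₀, ∀ {V : Type} [Fintype V] [DecidableEq V] (G : SimpleGraph V),
    G8 G p r a →
    ∑ v, df G p w r a (nb G univ v) ≤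
      (ltt p w r * (a : ℝ) ^ (w + 1) + K * (a : ℝ) ^ w) * Fintype.card V →
    ∃ (D : Finset V) (P : V → Fin (p + 3) → Finset V), (∀ v ∈ D, Cl G p r a e C v (P v)) ∧
      ((univ \ D).card : ℝ) ≤ ε * Fintype.card V

/-- (DLC) As the row of the same name. -/
def DLCStmt : Prop :=
  ∀ p r : ℕ, PrZ p r → 3 ≤ p → ∀ C : ℝ, 0 < C → ∃ K : ℕ, ∀ a ≥ K,
    ∀ {V : Type} [Fintype V] [DecidableEq V] (G : SimpleGraph V) (Q : Fin (p + 4) → Finset V),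
    G8 G p r a → Cor G p r a C Q → ∃ (s : ℕ) (σ : Fin (p + 4) → ℕ), 1 ≤ s ∧ s ≤ K ∧
      (∀ j, σ j ≤ K) ∧ (∀ j, (Q j).card + σ j = a + s) ∧ ∑ j, σ j + r = (p + 3) * s ∧
      (un Q).card = (p + 3) * a + r + a + s ∧
      (∀ j, ∀ u ∈ Q j, ∑ k ∈ univ.erase j, (non G (Q k) u).card =
        σ j + dl G p r a (un Q) u) ∧
      (∀ u ∈ un Q, (nb G (univ \ un Q) u).card ≤ dl G p r a (un Q) u) ∧
      (∀ u ∈ un Q, (dl G p r a (un Q) u : ℝ) ≤ a / (12 * ((p : ℝ) + 3))) ∧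
      ((∑ u ∈ un Q, dl G p r a (un Q) u : ℕ) : ℝ) ≤ C * a

/-- (CQT) As the row of the same name. -/
def CQTStmt : Prop :=
  ∀ p w r : ℕ, PrT p w r → PrZ p r → ∀ K₀ : ℕ, ∃ K : ℝ, 0 < K ∧ ∃ a₀ : ℕ, ∀ a ≥ a₀,
    ∀ {V : Type} [Fintype V] [DecidableEq V] (G : SimpleGraph V) (Q : Fin (p + 4) → Finset V)
    (σ : Fin (p + 4) → ℕ), G8 G p r a → Par G Q → (∀ j, σ j ≤ K₀) →
    (∀ j, (Q j).card ≤ a + K₀) →
    (∀ j, ∀ u ∈ Q j, ∑ k ∈ univ.erase j, (non G (Q k) u).card = σ j + dl G p r a (un Q) u) →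
    (∀ u ∈ un Q, (nb G (univ \ un Q) u).card ≤ dl G p r a (un Q) u) →
    (∀ u ∈ un Q, (dl G p r a (un Q) u : ℝ) ≤ a / (12 * ((p : ℝ) + 3))) →
    ((∑ u ∈ un Q, dl G p r a (un Q) u : ℕ) : ℝ) ≤ K₀ * a →
    (kc G univ (w + 3) : ℝ) - kc G (univ \ un Q) (w + 3) - kc G (un Q) (w + 3) +
        (p + 1).choose w * (a : ℝ) ^ w *
          ∑ j, ∑ u ∈ Q j, ((∑ k ∈ univ.erase j, (non G (Q k) u).card : ℕ) : ℝ) ^ 2 +
        1 / 10 * c1 p w * (a : ℝ) ^ (w + 1) * ∑ u ∈ un Q, (dl G p r a (un Q) u : ℝ) ≤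
      1 / 2 * c1 p w * (a : ℝ) ^ (w + 1) * ∑ u ∈ un Q, (dl G p r a (un Q) u : ℝ) +
        K * (a : ℝ) ^ (w + 1)

/-- (CST) As the row of the same name. -/
def CSTStmt : Prop :=
  ∀ p w r M : ℕ, 1 ≤ w → r ≤ p + 1 → ∃ K : ℝ, 0 < K ∧ ∀ a : ℕ, 1 ≤ a →
    ∀ {V : Type} [Fintype V] [DecidableEq V] (G : SimpleGraph V) (S : Finset V), G8 G p r a →
    (∀ u ∈ S, (nb G (univ \ S) u).card ≤ dl G p r a S u) →
    ∑ u ∈ S, dl G p r a S u ≤ M →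
    (kc G univ (w + 3) : ℝ) - kc G (univ \ S) (w + 3) - kc G S (w + 3) ≤ K * (a : ℝ) ^ w

/-- (AUG) As the row of the same name. -/
def AUGStmt : Prop :=
  ∀ p r : ℕ, r ≤ p + 1 → ∀ K : ℕ, ∃ a₀ : ℕ, ∀ a ≥ a₀,
    ∀ {V : Type} [DecidableEq V] (G : SimpleGraph V) (Q : Fin (p + 4) → Finset V)
    (σ : Fin (p + 4) → ℕ) (δ : V → ℕ), Par G Q → (∀ j, (Q j).card + σ j = a + 1) →
    ∑ j, σ j + r = p + 3 →
    (∀ j, ∀ u ∈ Q j, ∑ k ∈ univ.erase j, (non G (Q k) u).card = σ j + δ u) →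
    2 ≤ ∑ u ∈ un Q, δ u → ∑ u ∈ un Q, δ u ≤ K →
    ∃ EA EB : Finset (Sym2 V), (EA : Set (Sym2 V)) ⊆ mis G Q ∧ (EB : Set (Sym2 V)) ⊆ cro G Q ∧
      EA.card = EB.card + 1 ∧ EA.card ≤ 5 ∧ ∀ u ∈ un Q, dgE EA u ≤ dgE EB u + δ u

/-- (NTS) As the row of the same name. -/
def NTSStmt : Prop :=
  ∀ p w r : ℕ, PrT p w r → ∀ K : ℕ, ∀ K₁ : ℝ, 0 < K₁ → ∃ K₂ : ℝ, 0 < K₂ ∧ ∃ a₀ : ℕ, ∀ a ≥ a₀,
    ∀ s, 1 ≤ s → s ≤ K → ∀ n σ : Fin (p + 4) → ℕ, (∀ j, n j + σ j = a + s) → (∀ j, σ j ≤ K) →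
    ∑ j, σ j + r = (p + 3) * s →
    (s = 1 → Yt p w a K₁ n σ ≤ kt p w r a + K₂ * (a : ℝ) ^ (w + 1)) ∧
    (2 ≤ s → Yt p w a K₁ n σ * ((((p + 3) * a + r + a + 1 : ℕ)) : ℝ) ≤
      kt p w r a * ((((p + 3) * a + r + a + s : ℕ)) : ℝ))

/-- (NVT) As the row of the same name. -/
def NVTStmt : Prop :=
  ∀ p w r : ℕ, PrT p w r → ∃ K : ℝ, 0 < K ∧ ∃ a₀ : ℕ, ∀ a ≥ a₀, 0 < kt p w r a ∧
    (TT (p + 3) (w + 2) a r : ℝ) * ((((p + 3) * a + r + a + 1 : ℕ)) : ℝ) -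
        ((w : ℝ) + 3) * kt p w r a ≤
      (ltt p w r * (a : ℝ) ^ (w + 1) + K * (a : ℝ) ^ w) * ((((p + 3) * a + r + a + 1 : ℕ)) : ℝ)

/-- (RFT) As the row of the same name. -/
def RFTStmt : Prop :=
  ∀ p w r a : ℕ, PrT p w r → 1 ≤ a → ∃ R : SimpleGraph (Fin ((p + 3) * a + r + a + 1)),
    (∀ v, (R.neighborSet v).ncard ≤ (p + 3) * a + r) ∧ R.CliqueFree (p + 5) ∧
    kt p w r a ≤
      ({s : Finset (Fin ((p + 3) * a + r + a + 1)) | R.IsNClique (w + 3) s}.ncard : ℝ)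

/-- (BKT) As the row of the same name. -/
def BKTStmt : Prop :=
  ∀ p w r : ℕ, PrT p w r → ∃ C : ℝ, 0 < C ∧ ∃ a₀ : ℕ, ∀ a ≥ a₀,
    ∀ {V : Type} [Fintype V] [DecidableEq V] (G : SimpleGraph V), G8 G p r a → Nonempty V →
    kt p w r a * Fintype.card V ≤
      kc G univ (w + 3) * ((((p + 3) * a + r + a + 1 : ℕ)) : ℝ) →
    ∃ Q, Cor G p r a C Q

/-- (MNT) As the row of the same name. -/
def MNTStmt : Prop :=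
  ∀ p w r : ℕ, PrT p w r → ∀ C : ℝ, 0 < C → ∃ a₀ : ℕ, ∀ a ≥ a₀,
    ∀ {V : Type} [Fintype V] [DecidableEq V] (G : SimpleGraph V) (Q : Fin (p + 4) → Finset V),
    G8 G p r a → Cor G p r a C Q → (un Q).Nonempty ∧ (un Q).card ≤ (p + 5) * a ∧
    (((kc G univ (w + 3) : ℝ) - kc G (univ \ un Q) (w + 3)) *
        ((((p + 3) * a + r + a + 1 : ℕ)) : ℝ) ≤ kt p w r a * (un Q).card ∨
      ∃ G' : SimpleGraph V, (∀ u ∈ un Q, (nb G' (un Q) u).card ≤ (p + 3) * a + r) ∧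
        CB G' (un Q) (p + 4) ∧
        (kc G univ (w + 3) : ℝ) - kc G (univ \ un Q) (w + 3) ≤ kc G' (un Q) (w + 3))

/-- (FNT) As the row of the same name. -/
def FNTStmt : Prop :=
  ∀ p w r : ℕ, PrT p w r → ∃ a₀ : ℕ, ∀ a ≥ a₀,
    ∃ (n : ℕ) (R : SimpleGraph (Fin n)), 1 ≤ n ∧ n ≤ (p + 5) * a ∧
      (∀ v, (R.neighborSet v).ncard ≤ (p + 3) * a + r) ∧ R.CliqueFree (p + 5) ∧
      ∀ (m : ℕ) (H : SimpleGraph (Fin m)),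
        (∀ v, (H.neighborSet v).ncard ≤ (p + 3) * a + r) → H.CliqueFree (p + 5) →
        {s : Finset (Fin m) | H.IsNClique (w + 3) s}.ncard * n ≤
          {s : Finset (Fin n) | R.IsNClique (w + 3) s}.ncard * m

/-- (BLK) As the row of the same name. -/
def BLKStmt : Prop :=
  ∀ p r : ℕ, PrZ p r → ∃ C : ℝ, 0 < C ∧ ∃ a₀ : ℕ, ∀ a ≥ a₀,
    ∀ {V : Type} [Fintype V] [DecidableEq V] (G : SimpleGraph V), G8 G p r a → Nonempty V →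
    kx p r a * Fintype.card V ≤ kc G univ 3 * ((((p + 3) * a + r + a + 1 : ℕ)) : ℝ) →
    ∃ Q, Blb G p r a C Q

/-- (FNZ) As the row of the same name. -/
def FNZStmt : Prop :=
  ∀ p r : ℕ, PrZ p r → ∃ a₀ : ℕ, ∀ a ≥ a₀,
    ∃ R : SimpleGraph (Fin ((p + 3) * a + r + a + 1)),
      (∀ v, (R.neighborSet v).ncard ≤ (p + 3) * a + r) ∧ R.CliqueFree (p + 5) ∧
      ({s : Finset (Fin ((p + 3) * a + r + a + 1)) | R.IsNClique 3 s}.ncard : ℝ) = kx p r a ∧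
      ∀ (m : ℕ) (H : SimpleGraph (Fin m)),
        (∀ v, (H.neighborSet v).ncard ≤ (p + 3) * a + r) → H.CliqueFree (p + 5) →
        {s : Finset (Fin m) | H.IsNClique 3 s}.ncard * ((p + 3) * a + r + a + 1) ≤
          {s : Finset (Fin ((p + 3) * a + r + a + 1)) | R.IsNClique 3 s}.ncard * m

/-- (CMC) All residues, triangles. PROOF. `r ≤ p`: `PrG`; `r = p + 1`: `PrZ`. -/
def CMCStmt : Prop :=
  FNZStmt → Pool.JB7.FNGStmt → ∀ p r : ℕ, 2 ≤ p → r ≤ p + 1 → p + 3 < 3 * r → ∃ a₀ : ℕ, ∀ a ≥ a₀,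
    ∃ R : SimpleGraph (Fin ((p + 3) * a + r + a + 1)),
      (∀ v, (R.neighborSet v).ncard ≤ (p + 3) * a + r) ∧ R.CliqueFree (p + 5) ∧
      ({s : Finset (Fin ((p + 3) * a + r + a + 1)) | R.IsNClique 3 s}.ncard : ℝ) = kx p r a ∧
      ∀ (m : ℕ) (H : SimpleGraph (Fin m)),
        (∀ v, (H.neighborSet v).ncard ≤ (p + 3) * a + r) → H.CliqueFree (p + 5) →
        {s : Finset (Fin m) | H.IsNClique 3 s}.ncard * ((p + 3) * a + r + a + 1) ≤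
          {s : Finset (Fin ((p + 3) * a + r + a + 1)) | R.IsNClique 3 s}.ncard * m

/-- (CMD) All residues, larger cliques. PROOF. `r ≤ p`: CMB. `r = p + 1`: the first inequality gives `w + 1 < r`, `w < p`; `PrT`: `(p+2)(p+1) choose p (w+1) = c₁
(p+1-w)(p-w)`, so `(p+1) choose p (w+1) < c₁ (p-w)` (`w ≥ 1`). -/
def CMDStmt : Prop :=
  FNTStmt → Pool.KC7.FNJStmt → Pool.IA7.FNTStmt → Pool.KC7.CMBStmt →
    ∀ p w r : ℕ, 3 ≤ p → 1 ≤ w → w ≤ p → r ≤ p + 1 →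
    (w + 1) * (p + 3 - r) < 2 * r →
    2 * r * (w + 3) * (r - 1).choose (w + 1) +
      (w + 2) * (w + 1) * (p + 3 - r) * (p + 2).choose (w + 1) <
        2 * r * (w + 3) * (p + 2).choose (w + 1) →
    ∃ a₀ : ℕ, ∀ a ≥ a₀,
    ∃ (n : ℕ) (R : SimpleGraph (Fin n)), 1 ≤ n ∧ n ≤ (p + 5) * a ∧
      (∀ v, (R.neighborSet v).ncard ≤ (p + 3) * a + r) ∧ R.CliqueFree (p + 5) ∧
      ∀ (m : ℕ) (H : SimpleGraph (Fin m)),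
        (∀ v, (H.neighborSet v).ncard ≤ (p + 3) * a + r) → H.CliqueFree (p + 5) →
        {s : Finset (Fin m) | H.IsNClique (w + 3) s}.ncard * n ≤
          {s : Finset (Fin n) | R.IsNClique (w + 3) s}.ncard * m

end Pool.LD7
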